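import Pool.Agent.P.MP_2a8753_an.H.Lines

/-! Four time-frequency shifts, two of whose difference vectors have integer determinant. -/

set_option autoImplicit false

namespace Pool.Agent.Results.MP_2a8753_an.FourInteger

open MeasureTheory Pool.Agent.P.MP_2a8753_an

theorem result (p : Fin 4 → ℝ × ℝ) (hp : Function.Injective p)
    (hdet : ∃ (i j k l : Fin 4) (n : ℤ), n ≠ 0 ∧ ((p i).1 - (p j).1) * ((p k).2 - (p l).2) -
      ((p i).2 - (p j).2) * ((p k).1 - (p l).1) = (n : ℝ))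
    (g : ℝ → ℂ) (hg : MemLp g 2 (volume : Measure ℝ)) (hg0 : ¬ g =ᵐ[volume] 0) (c : Fin 4 → ℂ)
    (h : ∀ᵐ x ∂(volume : Measure ℝ), ∑ i : Fin 4, c i * tf (p i) g x = 0) : c = 0 := by
  obtain ⟨i, j, k, l, n, hn, e⟩ := hdet
  exact funext fun a => H.four p hp i j k l n hn e g hg hg0 c h a (Finset.mem_univ a)

end Pool.Agent.Results.MP_2a8753_an.FourInteger
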