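import Pool.Agent.P.MP_2a8753_an.H.Two2

/-! Points of two cosets of a lattice of covolume one whose offset lies on a rational line. -/

set_option autoImplicit false

namespace Pool.Agent.Results.MP_2a8753_an.TwoCosets

open MeasureTheory Pool.Agent.P.MP_2a8753_an

theorem result (o u v : ℝ × ℝ) (hdet : u.1 * v.2 - u.2 * v.1 = 1) (S T : Finset (ℤ × ℤ)) (r s : ℝ)
    (hST : ∀ k ∈ S, ∀ l ∈ T, ((k.1 : ℝ), (k.2 : ℝ)) ≠ (r + (l.1 : ℝ), s + (l.2 : ℝ)))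
    (hrs : ∃ a b m : ℤ, (a ≠ 0 ∨ b ≠ 0) ∧ (a : ℝ) * r + (b : ℝ) * s = (m : ℝ))
    (g : ℝ → ℂ) (hg : MemLp g 2 (volume : Measure ℝ)) (hg0 : ¬ g =ᵐ[volume] 0)
    (c d : ℤ × ℤ → ℂ)
    (h : ∀ᵐ x ∂(volume : Measure ℝ), ∑ k ∈ S, c k * tf (o + (k.1 : ℝ) • u + (k.2 : ℝ) • v) g x
      + ∑ l ∈ T, d l * tf (o + (r + (l.1 : ℝ)) • u + (s + (l.2 : ℝ)) • v) g x = 0) :
    (∀ k ∈ S, c k = 0) ∧ ∀ l ∈ T, d l = 0 := by
  obtain ⟨a, b, m, hab, e⟩ := hrs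
  refine H.fin_of_ind2 (H.bb2 S T (r, s) hST fun hI => ?_) o u v hdet g hg hg0 c d h
  obtain ⟨ha, hb⟩ := hI a b m e
  exact hab.elim (· ha) (· hb)

end Pool.Agent.Results.MP_2a8753_an.TwoCosets
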