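import Pool.Agent.P.MP_2a8753_an.H.Lines

/-! Equally spaced points on two transversal lines. -/

set_option autoImplicit false

namespace Pool.Agent.Results.MP_2a8753_an.TwoLines

open MeasureTheory Pool.Agent.P.MP_2a8753_an

theorem result (o o' u v : ℝ × ℝ) (hdet : u.1 * v.2 - u.2 * v.1 = 1) (A B : Finset ℤ)
    (hAB : ∀ k ∈ A, ∀ l ∈ B, o + (k : ℝ) • u ≠ o' + (l : ℝ) • v)
    (g : ℝ → ℂ) (hg : MemLp g 2 (volume : Measure ℝ)) (hg0 : ¬ g =ᵐ[volume] 0) (c d : ℤ → ℂ)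
    (h : ∀ᵐ x ∂(volume : Measure ℝ), ∑ k ∈ A, c k * tf (o + (k : ℝ) • u) g x
      + ∑ l ∈ B, d l * tf (o' + (l : ℝ) • v) g x = 0) :
    (∀ k ∈ A, c k = 0) ∧ ∀ l ∈ B, d l = 0 := by
  have := H.lines o o' u v hdet A B hAB g hg hg0 (Sum.elim c d) (h.mono fun x hx => by
    rw [Finset.sum_disjSum]
    exact hx)
  exact ⟨fun k hk => this (.inl k) (Finset.inl_mem_disjSum.2 hk),
    fun l hl => this (.inr l) (Finset.inr_mem_disjSum.2 hl)⟩

end Pool.Agent.Results.MP_2a8753_an.TwoLines
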